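import Pool.Agent.H27Path.Norm

set_option autoImplicit false

namespace Pool.Agent.H27Path

open Finset

variable {G : Type*} [Group G] {W : Sys G}

/-- `g` is a product of `m` light letters -/
def Reach (w : List G) (g : G) (m : ℕ) : Prop :=
  ∃ v : List G, (∀ s ∈ v, Light w s) ∧ v.prod = g ∧ v.length = m

open Classical in
/-- the norm -/
noncomputable def norm (w : List G) (ε : ℝ) (g : G) : ℝ :=
  if h : ∃ m, Reach w g m then min 1 (ε * Nat.find h) else 1

theorem norm_le_one (w : List G) (ε : ℝ) (g : G) : norm w ε g ≤ 1 := by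
  classical
  unfold norm
  split_ifs with h
  · exact min_le_left _ _
  · exact le_rfl

theorem norm_nonneg (w : List G) {ε : ℝ} (hε : 0 < ε) (g : G) : 0 ≤ norm w ε g := by
  classical
  unfold norm
  split_ifs with h
  · exact le_min zero_le_one (by positivity)
  · exact zero_le_one

theorem norm_le_of_reach (w : List G) {ε : ℝ} (hε : 0 < ε) {g : G} {m : ℕ} (h : Reach w g m) :
    norm w ε g ≤ ε * m := by
  classical
  unfold norm
  rw [dif_pos ⟨m, h⟩]
  refine (min_le_right _ _).trans ?_
  have : Nat.find ⟨m, h⟩ ≤ m := Nat.find_min' _ h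
  have : ((Nat.find (⟨m, h⟩ : ∃ m, Reach w g m) : ℕ) : ℝ) ≤ m := by exact_mod_cast this
  exact mul_le_mul_of_nonneg_left this hε.le

theorem norm_cases (w : List G) {ε : ℝ} (g : G) :
    norm w ε g = 1 ∨ ∃ m, Reach w g m ∧ (∀ k < m, ¬ Reach w g k) ∧ norm w ε g = ε * m := by
  classical
  unfold norm
  split_ifs with h
  · rcases min_choice (1 : ℝ) (ε * Nat.find h) with h1 | h1
    · exact Or.inl h1
    · exact Or.inr ⟨Nat.find h, Nat.find_spec h, fun k hk => Nat.find_min h hk, h1⟩
  · exact Or.inl rfl

theorem norm_one (w : List G) {ε : ℝ} (hε : 0 < ε) : norm w ε (1 : G) = 0 := by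
  refine le_antisymm ?_ (norm_nonneg w hε 1)
  have := norm_le_of_reach w hε (g := 1) (m := 0) ⟨[], by simp, by simp, by simp⟩
  simpa using this

theorem eq_one_of_norm (w : List G) {ε : ℝ} (hε : 0 < ε) {g : G} (h : norm w ε g = 0) : g = 1 := by
  rcases norm_cases w (ε := ε) g with h1 | ⟨m, ⟨v, _, h2, h3⟩, _, h4⟩
  · rw [h1] at h
    exact absurd h one_ne_zero
  · rw [h4] at h
    rcases mul_eq_zero.1 h with h5 | h5
    · exact absurd h5 hε.ne'
    · have h6 : m = 0 := by exact_mod_cast h5
      rw [h6] at h3
      rw [List.length_eq_zero_iff] at h3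
      rw [← h2, h3, List.prod_nil]

theorem Reach.inv {w : List G} {g : G} {m : ℕ} (h : Reach w g m) : Reach w g⁻¹ m := by
  obtain ⟨v, h1, h2, h3⟩ := h
  refine ⟨v.reverse.map (·⁻¹), ?_, ?_, ?_⟩
  · intro s hs
    rw [List.mem_map] at hs
    obtain ⟨t, ht, rfl⟩ := hs
    exact light_inv (h1 t (List.mem_reverse.1 ht))
  · rw [List.map_reverse, ← List.prod_inv_reverse, h2]
  · rw [List.length_map, List.length_reverse, h3]

theorem Reach.mul {w : List G} {g g' : G} {m m' : ℕ} (h : Reach w g m) (h' : Reach w g' m') :
    Reach w (g * g') (m + m') := by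
  obtain ⟨v, h1, h2, h3⟩ := h
  obtain ⟨v', h1', h2', h3'⟩ := h'
  refine ⟨v ++ v', ?_, ?_, ?_⟩
  · intro s hs
    rcases List.mem_append.1 hs with h | h
    · exact h1 s h
    · exact h1' s h
  · rw [List.prod_append, h2, h2']
  · rw [List.length_append, h3, h3']

theorem norm_inv_le (w : List G) {ε : ℝ} (hε : 0 < ε) (g : G) : norm w ε g⁻¹ ≤ norm w ε g := by
  rcases norm_cases w (ε := ε) g with h1 | ⟨m, h2, _, h4⟩
  · rw [h1]; exact norm_le_one _ _ _
  · rw [h4]; exact norm_le_of_reach w hε h2.inv

theorem norm_inv (w : List G) {ε : ℝ} (hε : 0 < ε) (g : G) : norm w ε g⁻¹ = norm w ε g := by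
  refine le_antisymm (norm_inv_le w hε g) ?_
  have := norm_inv_le w hε g⁻¹
  rwa [inv_inv] at this

theorem norm_mul_le (w : List G) {ε : ℝ} (hε : 0 < ε) (g g' : G) :
    norm w ε (g * g') ≤ norm w ε g + norm w ε g' := by
  have h0 := norm_nonneg w hε g
  have h0' := norm_nonneg w hε g'
  rcases norm_cases w (ε := ε) g with h1 | ⟨m, h2, _, h4⟩
  · rw [h1]
    have := norm_le_one w ε (g * g')
    linarith
  · rcases norm_cases w (ε := ε) g' with h1' | ⟨m', h2', _, h4'⟩
    · rw [h1']
      have := norm_le_one w ε (g * g')
      linarith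
    · rw [h4, h4']
      refine (norm_le_of_reach w hε (h2.mul h2')).trans (le_of_eq ?_)
      push_cast
      ring

/-- upper bound for the length of a word -/
theorem sum_norm_le (w : List G) {ε : ℝ} (hε : 0 < ε) (l : List G) :
    (l.map (norm w ε)).sum ≤ heavy w l + ε * l.length := by
  classical
  unfold heavy
  induction l with
  | nil => simp
  | cons a l ih =>
    rw [List.map_cons, List.sum_cons, List.countP_cons, List.length_cons]
    by_cases ha : Light w a
    · have h1 : norm w ε a ≤ ε := by
        have := norm_le_of_reach w hε (g := a) (m := 1) ⟨[a], by simpa using ha, by simp, by simp⟩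
        simpa using this
      simp only [ha, not_true_eq_false, decide_false, Bool.false_eq_true, if_false]
      push_cast
      linarith
    · have h1 := norm_le_one w ε a
      simp only [ha, not_false_eq_true, decide_true, if_true]
      push_cast
      linarith

theorem sum_norm_light (w : List G) {ε : ℝ} (hε : 0 < ε) (l : List G) (hl : ∀ s ∈ l, Light w s) :
    (l.map (norm w ε)).sum ≤ ε * l.length := by
  refine (sum_norm_le w hε l).trans ?_
  have : heavy w l = 0 := by
    classical
    unfold heavy
    rw [List.countP_eq_zero]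
    intro s hs
    simpa using hl s hs
  rw [this]
  simp

/-- a minimal light word is reduced -/
theorem reduced_of_min {w v : List G} {g : G} {m : ℕ} (hv : ∀ s ∈ v, Light w s) (hg : v.prod = g)
    (hm : v.length = m) (hmin : ∀ k < m, ¬ Reach w g k) : v.IsChain (fun a b => b ≠ a⁻¹) := by
  by_contra h
  obtain ⟨l1, a, b, l2, h1, h2⟩ := exists_of_not_isChain _ _ h
  rw [not_not] at h2
  subst h2
  apply hmin (l1.length + l2.length) ?_
  · refine ⟨l1 ++ l2, ?_, ?_, List.length_append⟩
    · intro s hs
      apply hv
      rw [h1]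
      simp only [List.mem_append, List.mem_cons] at hs ⊢
      rcases hs with h | h
      · exact Or.inl h
      · exact Or.inr (Or.inr (Or.inr h))
    · rw [← hg, h1]
      simp
  · rw [← hm, h1]
    simp only [List.length_append, List.length_cons]
    omega

theorem main [Fintype G] (W : Sys G) : ∃ N : G → ℝ, (∀ g, N g = 0 ↔ g = 1) ∧
    (∀ g, N g⁻¹ = N g) ∧ (∀ g g', N (g * g') ≤ N g + N g') ∧
    ∀ g, ((W.word g).map N).sum ≤ 4 * Real.sqrt (Fintype.card G) * N g := by
  classical
  set r : ℝ := Real.sqrt (Fintype.card G) with hr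
  have hcard : (1 : ℝ) ≤ Fintype.card G := by exact_mod_cast Fintype.card_pos
  have hr1 : 1 ≤ r := by
    rw [hr, Real.one_le_sqrt]
    exact hcard
  have hr2 : r ^ 2 = Fintype.card G := Real.sq_sqrt (by positivity)
  -- a longest word
  obtain ⟨g0, hg0⟩ : ∃ g0, ∀ g, (W.word g).length ≤ (W.word g0).length :=
    Finite.exists_max (fun g => (W.word g).length)
  set w := W.word g0 with hw
  have hwM : W.Mem w := W.mem_word g0
  set L := w.length with hL
  by_cases hcase : (L : ℝ) + 1 < 3 * r
  · -- the discrete metric
    refine ⟨fun g => if g = 1 then 0 else 1, ?_, ?_, ?_, ?_⟩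
    · intro g
      by_cases h : g = 1 <;> simp [h]
    · intro g
      by_cases h : g = 1 <;> simp [h]
    · intro g g'
      by_cases h : g = 1
      · simp [h]
      · by_cases h' : g' = 1
        · simp [h, h']
        · simp only [h, h', if_false]
          split_ifs <;> norm_num
    · intro g
      by_cases h : g = 1
      · rw [h, W.word_one]
        simp
      · simp only [h, if_false, mul_one]
        have h1 : ∀ l : List G, (l.map fun g => if g = 1 then (0 : ℝ) else 1).sum ≤ l.length := by
          intro l
          induction l with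
          | nil => simp
          | cons a l ih =>
            rw [List.map_cons, List.sum_cons, List.length_cons]
            push_cast
            have : (if a = 1 then (0 : ℝ) else 1) ≤ 1 := by split_ifs <;> norm_num
            linarith
        refine (h1 _).trans ?_
        have h2 : ((W.word g).length : ℝ) ≤ L := by exact_mod_cast hg0 g
        linarith
  · push Not at hcase
    have hLpos : (0 : ℝ) < (L : ℝ) + 1 := by positivity
    set ε : ℝ := r / (L + 1) with hε
    have hε0 : 0 < ε := by positivity
    -- heavy letters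
    have hheavy : ∀ g, (heavy w (W.word g) : ℝ) + 3 ≤ r := by
      intro g
      have h1 := heavy_bound hwM (W.mem_word g)
      have h2 : ((heavy w (W.word g) : ℝ) + 3) * (L + 1) ≤ 3 * r ^ 2 := by
        rw [hr2]
        exact_mod_cast h1
      have h3 : ((heavy w (W.word g) : ℝ) + 3) * (3 * r) ≤ r * (3 * r) := by
        have h4 : ((heavy w (W.word g) : ℝ) + 3) * (3 * r) ≤
            ((heavy w (W.word g) : ℝ) + 3) * (L + 1) :=
          mul_le_mul_of_nonneg_left hcase (by positivity)
        nlinarith
      exact le_of_mul_le_mul_right h3 (by positivity)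
    have hheavyw : (heavy w w : ℝ) + 3 ≤ (L + 1) / 3 := by
      have h1 := heavy_bound hwM hwM
      have h2 : ((heavy w w : ℝ) + 3) * (L + 1) ≤ 3 * r ^ 2 := by
        rw [hr2]
        exact_mod_cast h1
      have h3 : ((heavy w w : ℝ) + 3) * (L + 1) ≤ (L + 1) / 3 * (L + 1) := by nlinarith
      exact le_of_mul_le_mul_right h3 hLpos
    -- the longest light factor
    obtain ⟨u, ⟨huw, huL⟩, humax⟩ : ∃ u : List G, (u <:+: w ∧ ∀ s ∈ u, Light w s) ∧
        ∀ u' : List G, u' <:+: w ∧ (∀ s ∈ u', Light w s) → u'.length ≤ u.length := by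
      have hne : {n : ℕ | ∃ u : List G, (u <:+: w ∧ ∀ s ∈ u, Light w s) ∧ u.length = n}.Nonempty :=
        ⟨0, [], ⟨List.nil_infix, by simp⟩, rfl⟩
      have hbdd : BddAbove {n : ℕ | ∃ u : List G, (u <:+: w ∧ ∀ s ∈ u, Light w s) ∧
          u.length = n} := by
        refine ⟨w.length, ?_⟩
        rintro n ⟨u, ⟨h1, _⟩, rfl⟩
        exact h1.length_le
      obtain ⟨u, hu, hun⟩ := Nat.sSup_mem hne hbdd
      refine ⟨u, hu, fun u' hu' => ?_⟩
      rw [hun]
      exact le_csSup hbdd ⟨u', hu', rfl⟩
    have hrun : (L : ℝ) ≤ heavy w w + (heavy w w + 1) * u.length := by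
      have h1 := run_bound (fun s => decide (¬ Light w s)) u.length w.length w le_rfl (by
        intro u' hu' hu''
        apply humax u' ⟨hu', fun s hs => ?_⟩
        have := hu'' s hs
        simpa using this)
      have h2 : L ≤ heavy w w + (heavy w w + 1) * u.length := by
        unfold heavy
        exact h1
      exact_mod_cast h2
    have huK : 1 / 2 ≤ ε * u.length := by
      have h1 : (heavy w w : ℝ) + 1 ≤ r := by
        have := hheavy g0
        rw [← hw] at this
        linarith
      have h2 : ((heavy w w : ℝ) + 1) * u.length ≤ r * u.length :=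
        mul_le_mul_of_nonneg_right h1 (by positivity)
      rw [hε, div_mul_eq_mul_div, le_div_iff₀ hLpos]
      linarith
    refine ⟨norm w ε, ?_, norm_inv w hε0, norm_mul_le w hε0, ?_⟩
    · intro g
      exact ⟨eq_one_of_norm w hε0, fun h => by rw [h]; exact norm_one w hε0⟩
    · intro g
      have hup : ((W.word g).map (norm w ε)).sum ≤ 2 * r := by
        refine (sum_norm_le w hε0 _).trans ?_
        have h1 := hheavy g
        have h2 : ((W.word g).length : ℝ) ≤ L := by exact_mod_cast hg0 g
        have h3 : ε * (W.word g).length ≤ r := by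
          rw [hε, div_mul_eq_mul_div, div_le_iff₀ hLpos]
          nlinarith
        linarith
      have hbig : 1 / 2 ≤ norm w ε g →
          ((W.word g).map (norm w ε)).sum ≤ 4 * r * norm w ε g := by
        intro h
        nlinarith
      rcases norm_cases w (ε := ε) g with h1 | ⟨m, h2, hmin, h4⟩
      · exact hbig (by rw [h1]; norm_num)
      · by_cases hm : u.length ≤ m
        · apply hbig
          rw [h4]
          refine huK.trans (mul_le_mul_of_nonneg_left (by exact_mod_cast hm) hε0.le)
        · push Not at hm
          obtain ⟨v, hv1, hv2, hv3⟩ := h2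
          have hvred := reduced_of_min hv1 hv2 hv3 hmin
          have hured : u.IsChain (fun a b => b ≠ a⁻¹) := by
            obtain ⟨l1, l3, hl⟩ := huw
            have : W.Mem u := by
              rw [← hl] at hwM
              exact hwM.factor
            exact this.reduced
          have huM : W.Mem u := by
            obtain ⟨l1, l3, hl⟩ := huw
            rw [← hl] at hwM
            exact hwM.factor
          have hvM : W.Mem v := by
            rcases infix_of_reduced (Light w) (fun a => light_inv) (light_three w) u v huL hv1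
              hured hvred (by omega) with ⟨l1, l3, hl⟩ | ⟨l1, l3, hl⟩
            · rw [← hl] at huM
              exact huM.factor
            · have h5 := huM.reverse
              rw [← hl] at h5
              exact h5.factor
          have h6 : W.word g = v := by
            rw [← hv2]
            exact hvM
          rw [h6]
          refine (sum_norm_light w hε0 v hv1).trans ?_
          rw [h4, hv3]
          have h7 : 0 ≤ ε * m := by positivity
          nlinarith

end Pool.Agent.H27Path
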