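import Pool.Agent.H27Path.Words

set_option autoImplicit false

namespace Pool.Agent.H27Path

open Finset

variable {G : Type*} [Group G] {W : Sys G}

theorem Sys.Mem.tail {a : G} {l : List G} (h : W.Mem (a :: l)) : W.Mem l := by
  have : a :: l = [a] ++ l ++ [] := by simp
  rw [this] at h
  exact h.factor

theorem Sys.Mem.ne_inv {a b : G} {l : List G} (h : W.Mem (a :: b :: l)) : b ≠ a⁻¹ := by
  rintro rfl
  have : a :: a⁻¹ :: l = [] ++ [a, a⁻¹] ++ l := by simp
  rw [this] at h
  have h1 := h.factor
  have h2 := h1.eq_nil (by simp)
  simp at h2

theorem Sys.Mem.reduced {w : List G} (h : W.Mem w) : w.IsChain (fun a b => b ≠ a⁻¹) := by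
  induction w with
  | nil => exact List.IsChain.nil
  | cons a l ih =>
    cases l with
    | nil => exact List.IsChain.singleton a
    | cons b l =>
      exact List.IsChain.cons_cons h.ne_inv (ih h.tail)

theorem exists_of_not_isChain {α : Type*} (R : α → α → Prop) (l : List α) (h : ¬ l.IsChain R) :
    ∃ l1 a b l2, l = l1 ++ a :: b :: l2 ∧ ¬ R a b := by
  induction l with
  | nil => exact absurd List.IsChain.nil h
  | cons a l ih =>
    cases l with
    | nil => exact absurd (List.IsChain.singleton a) h
    | cons b l =>
      by_cases hab : R a b
      · have : ¬ (b :: l).IsChain R := fun h' => h (List.IsChain.cons_cons hab h')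
        obtain ⟨l1, x, y, l2, h1, h2⟩ := ih this
        exact ⟨a :: l1, x, y, l2, by rw [h1]; rfl, h2⟩
      · exact ⟨[], a, b, l, rfl, hab⟩

/-- reduced words over a set without three distinct elements are determined by the first letter -/
theorem prefix_of_reduced (A : G → Prop) (hA : ∀ a, A a → A a⁻¹)
    (h3 : ∀ a b c, A a → A b → A c → a = b ∨ a = c ∨ b = c) :
    ∀ (x y : List G) (a : G), (∀ s ∈ a :: x, A s) → (∀ s ∈ a :: y, A s) →
      (a :: x).IsChain (fun a b => b ≠ a⁻¹) → (a :: y).IsChain (fun a b => b ≠ a⁻¹) →
      x.length ≤ y.length → x <+: y := by
  intro x
  induction x with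
  | nil => intro y a _ _ _ _ _; exact List.nil_prefix
  | cons b x ih =>
    intro y a hx hy hxc hyc hlen
    cases y with
    | nil => simp at hlen
    | cons c y =>
      rw [List.isChain_cons_cons] at hxc hyc
      have h1 : b = c := by
        rcases h3 b c a⁻¹ (hx b (by simp)) (hy c (by simp)) (hA a (hx a (by simp))) with h | h | h
        · exact h
        · exact absurd h hxc.1
        · exact absurd h hyc.1
      subst h1
      rw [List.cons_prefix_cons]
      refine ⟨rfl, ih y b (fun s hs => hx s (List.mem_cons_of_mem _ hs))
        (fun s hs => hy s (List.mem_cons_of_mem _ hs)) hxc.2 hyc.2 ?_⟩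
      simpa using hlen

theorem isChain_replicate (a : G) (h : a ≠ a⁻¹) (n : ℕ) :
    (List.replicate n a).IsChain (fun a b => b ≠ a⁻¹) := by
  induction n with
  | zero => exact List.IsChain.nil
  | succ n ih =>
    cases n with
    | zero => exact List.IsChain.singleton a
    | succ n => exact List.IsChain.cons_cons h ih

theorem infix_of_reduced (A : G → Prop) (hA : ∀ a, A a → A a⁻¹)
    (h3 : ∀ a b c, A a → A b → A c → a = b ∨ a = c ∨ b = c)
    (u v : List G) (hu : ∀ s ∈ u, A s) (hv : ∀ s ∈ v, A s)
    (huc : u.IsChain (fun a b => b ≠ a⁻¹)) (hvc : v.IsChain (fun a b => b ≠ a⁻¹))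
    (hlen : v.length < u.length) : v <:+: u ∨ v <:+: u.reverse.map (·⁻¹) := by
  cases v with
  | nil => exact Or.inl List.nil_infix
  | cons t v =>
    cases u with
    | nil => simp at hlen
    | cons a u =>
      cases u with
      | nil => simp at hlen
      | cons b u =>
        have hta := hv t (by simp)
        have haA := hu a (by simp)
        have hbA := hu b (by simp)
        have hba : b ≠ a⁻¹ := (List.isChain_cons_cons.1 huc).1
        by_cases h1 : t = a
        · subst h1
          left
          apply List.IsPrefix.isInfix
          rw [List.cons_prefix_cons]
          refine ⟨rfl, prefix_of_reduced A hA h3 v (b :: u) t hv hu hvc huc ?_⟩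
          simp only [List.length_cons] at hlen ⊢
          omega
        by_cases h2 : t = b
        · subst h2
          left
          have h5 : (t :: v) <+: (t :: u) := by
            rw [List.cons_prefix_cons]
            refine ⟨rfl, prefix_of_reduced A hA h3 v u t hv
              (fun s hs => hu s (List.mem_cons_of_mem _ hs)) hvc (List.isChain_cons_cons.1 huc).2 ?_⟩
            simp only [List.length_cons] at hlen ⊢
            omega
          exact h5.isInfix.trans (List.suffix_cons a (t :: u)).isInfix
        · have h4 : a = b := by
            rcases h3 t a b hta haA hbA with h | h | h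
            · exact absurd h h1
            · exact absurd h h2
            · exact h
          subst h4
          have h5 : t = a⁻¹ := by
            rcases h3 t a a⁻¹ hta haA (hA a haA) with h | h | h
            · exact absurd h h1
            · exact h
            · exact absurd h hba
          right
          have h6 : a :: u = List.replicate (u.length + 1) a := by
            have h7 := prefix_of_reduced A hA h3 (a :: u) (List.replicate (u.length + 1) a) a hu
              (fun s hs => by
                have : s = a := by
                  rw [← List.replicate_succ] at hs
                  exact List.eq_of_mem_replicate hs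
                rw [this]
                exact haA)
              huc (by
                rw [← List.replicate_succ]
                exact isChain_replicate a hba _) (by simp)
            exact h7.eq_of_length (by simp)
          have h8 : v = List.replicate v.length t := by
            have ht : t ≠ t⁻¹ := by
              rw [h5, inv_inv]
              exact fun h => hba h.symm
            have h7 := prefix_of_reduced A hA h3 v (List.replicate v.length t) t hv
              (fun s hs => by
                have : s = t := by
                  rw [← List.replicate_succ] at hs
                  exact List.eq_of_mem_replicate hs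
                rw [this]
                exact hta)
              hvc (by
                rw [← List.replicate_succ]
                exact isChain_replicate t ht _) (by simp)
            exact h7.eq_of_length (by simp)
          have h9 : (a :: a :: u).reverse.map (·⁻¹) = List.replicate (u.length + 2) t := by
            rw [h6, ← List.replicate_succ, List.reverse_replicate, List.map_replicate, ← h5]
          rw [h9, h8, ← List.replicate_succ]
          apply List.IsPrefix.isInfix
          refine ⟨List.replicate (u.length + 2 - (v.length + 1)) t, ?_⟩
          rw [← List.replicate_add]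
          congr 1
          simp only [List.length_cons, List.length_replicate] at hlen ⊢
          omega

/-- runs -/
theorem run_bound {α : Type*} (H : α → Bool) (K : ℕ) :
    ∀ (n : ℕ) (t : List α), t.length ≤ n →
      (∀ u, u <:+: t → (∀ s ∈ u, H s = false) → u.length ≤ K) →
      t.length ≤ t.countP H + (t.countP H + 1) * K := by
  intro n
  induction n with
  | zero =>
    intro t ht _
    have : t.length = 0 := by omega
    rw [this]
    exact Nat.zero_le _
  | succ n ih =>
    intro t ht hK
    by_cases hall : ∀ s ∈ t, H s = false
    · have := hK t (List.infix_refl t) hall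
      nlinarith [Nat.zero_le (t.countP H), Nat.zero_le (t.countP H * K)]
    · push Not at hall
      -- split at the first heavy letter
      have hsplit : ∃ t1 x t2, t = t1 ++ x :: t2 ∧ (∀ s ∈ t1, H s = false) ∧ H x = true := by
        clear ih ht hK
        induction t with
        | nil => obtain ⟨s, hs, _⟩ := hall; simp at hs
        | cons a t iht =>
          by_cases ha : H a = true
          · exact ⟨[], a, t, rfl, by simp, ha⟩
          · have ha' : H a = false := by simpa using ha
            obtain ⟨s, hs, hs'⟩ := hall
            rcases List.mem_cons.1 hs with h | h
            · rw [h] at hs'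
              exact absurd ha' hs'
            · obtain ⟨t1, x, t2, h1, h2, h3⟩ := iht ⟨s, h, hs'⟩
              refine ⟨a :: t1, x, t2, by rw [h1]; rfl, ?_, h3⟩
              intro s' hs'
              rcases List.mem_cons.1 hs' with h | h
              · rw [h]; exact ha'
              · exact h2 s' h
      obtain ⟨t1, x, t2, h1, h2, h3⟩ := hsplit
      have hlen : t.length = t1.length + t2.length + 1 := by
        rw [h1, List.length_append, List.length_cons]; omega
      have hc : t.countP H = t2.countP H + 1 := by
        rw [h1, List.countP_append, List.countP_cons, h3]
        have : t1.countP H = 0 := by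
          rw [List.countP_eq_zero]
          intro s hs
          rw [h2 s hs]
          simp
        rw [this]
        simp
      have hb1 : t1.length ≤ K := by
        refine hK t1 ?_ h2
        rw [h1]
        exact (List.prefix_append t1 (x :: t2)).isInfix
      have hb2 := ih t2 (by omega) (fun u hu hu' => hK u (hu.trans (by
        rw [h1]
        exact ((List.suffix_cons x t2).trans (List.suffix_append t1 (x :: t2))).isInfix)) hu')
      rw [hlen, hc]
      nlinarith

theorem cc_le {w : List G} (hw : W.Mem w) (s : G) : cc w s ≤ w.length + 1 := by
  classical
  unfold cc
  rw [occ_def, occ_def]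
  have h1 : (((range w.length).filter fun p => w[p]? = some s).image (· + 1)).card =
      ((range w.length).filter fun p => w[p]? = some s).card :=
    card_image_of_injective _ (add_left_injective 1)
  rw [← h1, ← card_union_of_disjoint]
  · calc _ ≤ (range (w.length + 1)).card := by
          apply card_le_card
          intro x hx
          rw [mem_union, mem_image] at hx
          rw [mem_range]
          rcases hx with ⟨p, hp, rfl⟩ | hx
          · rw [mem_filter, mem_range] at hp
            omega
          · rw [mem_filter, mem_range] at hx
            omega
      _ = w.length + 1 := card_range _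
  · rw [disjoint_left]
    intro x hx hx'
    rw [mem_image] at hx
    obtain ⟨p, hp, rfl⟩ := hx
    rw [mem_filter, mem_range] at hp hx'
    have h2 := hw.of_take p 2
    have h3 : (w.drop p).take 2 = [s, s⁻¹] := by
      obtain ⟨hp1, hp2⟩ := List.getElem?_eq_some_iff.1 hp.2
      obtain ⟨hq1, hq2⟩ := List.getElem?_eq_some_iff.1 hx'.2
      rw [List.drop_eq_getElem_cons hp1, List.drop_eq_getElem_cons hq1, hp2, hq2]
      rfl
    rw [h3] at h2
    have := h2.eq_nil (by simp)
    simp at this

theorem occ_three (w : List G) (s1 s2 s3 : G) (h12 : s1 ≠ s2) (h13 : s1 ≠ s3) (h23 : s2 ≠ s3) :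
    occ w s1 + occ w s2 + occ w s3 ≤ w.length := by
  classical
  rw [occ_def, occ_def, occ_def, ← card_union_of_disjoint, ← card_union_of_disjoint]
  · calc _ ≤ (range w.length).card := by
          apply card_le_card
          intro x hx
          rw [mem_union, mem_union, mem_filter, mem_filter, mem_filter] at hx
          rcases hx with (hx | hx) | hx <;> exact hx.1
      _ = w.length := card_range _
  · rw [disjoint_left]
    intro x hx hx'
    rw [mem_union, mem_filter, mem_filter] at hx
    rw [mem_filter] at hx'
    rcases hx with hx | hx
    · exact h13 (Option.some_injective _ (hx.2.symm.trans hx'.2))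
    · exact h23 (Option.some_injective _ (hx.2.symm.trans hx'.2))
  · rw [disjoint_left]
    intro x hx hx'
    rw [mem_filter] at hx hx'
    exact h12 (Option.some_injective _ (hx.2.symm.trans hx'.2))

/-- light letters -/
def Light (w : List G) (s : G) : Prop := 2 * (w.length + 1) ≤ 3 * cc w s

theorem light_inv {w : List G} {s : G} (h : Light w s) : Light w s⁻¹ := by
  unfold Light at *
  rwa [cc_inv]

theorem light_three (w : List G) (s1 s2 s3 : G) (h1 : Light w s1) (h2 : Light w s2)
    (h3 : Light w s3) : s1 = s2 ∨ s1 = s3 ∨ s2 = s3 := by
  by_contra hcon
  push Not at hcon
  obtain ⟨h12, h13, h23⟩ := hcon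
  unfold Light cc at *
  have h4 := occ_three w s1 s2 s3 h12 h13 h23
  have h5 := occ_three w s1⁻¹ s2⁻¹ s3⁻¹ (fun h => h12 (inv_injective h))
    (fun h => h13 (inv_injective h)) (fun h => h23 (inv_injective h))
  omega

open Classical in
/-- number of heavy letters -/
noncomputable def heavy (w w' : List G) : ℕ := w'.countP fun s => decide (¬ Light w s)

theorem heavy_bound [Fintype G] {w w' : List G} (hw : W.Mem w) (hw' : W.Mem w') :
    (heavy w w' + 3) * (w.length + 1) ≤ 3 * Fintype.card G := by
  classical
  have h1 := counting hw hw'
  have h2 : ∀ l : List G, 3 * (l.map (cc w)).sum + (l.countP fun s => decide (¬ Light w s)) *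
      (w.length + 1) ≤ 3 * l.length * (w.length + 1) := by
    intro l
    induction l with
    | nil => simp
    | cons a l ih =>
      rw [List.map_cons, List.sum_cons, List.countP_cons, List.length_cons]
      have h3 := cc_le hw a
      by_cases ha : Light w a
      · simp only [ha, not_true_eq_false, decide_false, Bool.false_eq_true, if_false]
        nlinarith
      · have ha' : ¬ 2 * (w.length + 1) ≤ 3 * cc w a := ha
        simp only [ha, not_false_eq_true, decide_true, if_true]
        nlinarith
  have h3 := h2 w'
  unfold heavy
  nlinarith

end Pool.Agent.H27Path
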