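import Mathlib

set_option autoImplicit false

namespace Pool.Agent.H27Path

open Finset

variable {G : Type*} [Group G]

/-- A system of words: each group element has a word, with closure under factors and inverses. -/
structure Sys (G : Type*) [Group G] where
  word : G → List G
  prod_word : ∀ g, (word g).prod = g
  factor_word : ∀ g l1 l2 l3, word g = l1 ++ l2 ++ l3 → word l2.prod = l2
  inv_word : ∀ g, word g⁻¹ = (word g).reverse.map (·⁻¹)
  word_one : word 1 = []

variable (W : Sys G)

/-- the words of the system -/
def Sys.Mem (w : List G) : Prop := W.word w.prod = w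

variable {W}

theorem Sys.mem_word (g : G) : W.Mem (W.word g) := by
  unfold Sys.Mem
  rw [W.prod_word]

theorem Sys.Mem.factor {l1 l2 l3 : List G} (h : W.Mem (l1 ++ l2 ++ l3)) : W.Mem l2 :=
  W.factor_word _ l1 l2 l3 h

theorem Sys.Mem.of_take {w : List G} (h : W.Mem w) (i n : ℕ) : W.Mem ((w.drop i).take n) := by
  have h1 : w = w.take i ++ (w.drop i).take n ++ (w.drop i).drop n := by
    rw [List.append_assoc, List.take_append_drop, List.take_append_drop]
  rw [h1] at h
  exact h.factor

theorem Sys.Mem.reverse {w : List G} (h : W.Mem w) : W.Mem (w.reverse.map (·⁻¹)) := by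
  unfold Sys.Mem at *
  have h1 : (w.reverse.map (·⁻¹)).prod = w.prod⁻¹ := by
    rw [List.prod_inv_reverse, List.map_reverse]
  rw [h1, W.inv_word, h]

theorem Sys.Mem.eq {w w' : List G} (h : W.Mem w) (h' : W.Mem w') (he : w.prod = w'.prod) :
    w = w' := by
  unfold Sys.Mem at *
  rw [← h, ← h', he]

theorem Sys.Mem.eq_nil {w : List G} (h : W.Mem w) (he : w.prod = 1) : w = [] := by
  unfold Sys.Mem at *
  rw [← h, he, W.word_one]

theorem prod_take_add (w : List G) (i n : ℕ) :
    (w.take (i + n)).prod = (w.take i).prod * ((w.drop i).take n).prod := by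
  rw [List.take_add, List.prod_append]

/-- Coincidences of the two-word products give equal letters. -/
theorem coincide {w w' : List G} (hw : W.Mem w) (hw' : W.Mem w') {i j i' j' : ℕ} (hij : i < j)
    (hj : j ≤ w.length) (hi' : i' ≤ w'.length) (hj' : j' ≤ w'.length)
    (he : (w'.take i').prod * ((w.take i).prod)⁻¹ = (w'.take j').prod * ((w.take j).prod)⁻¹) :
    (∃ p q, j = p + 1 ∧ j' = q + 1 ∧ ∃ s, w[p]? = some s ∧ w'[q]? = some s) ∨
    (∃ p q, j = p + 1 ∧ j' = q ∧ ∃ s, w[p]? = some s⁻¹ ∧ w'[q]? = some s) := by
  obtain ⟨a, rfl⟩ : ∃ a, j = i + (a + 1) := ⟨j - i - 1, by omega⟩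
  have hx := hw.of_take i (a + 1)
  set x := (w.drop i).take (a + 1) with hxd
  have hxlen : x.length = a + 1 := by
    rw [hxd, List.length_take, List.length_drop]
    omega
  have hxlast : x[a]? = w[i + a]? := by
    rw [hxd, List.getElem?_take_of_lt (by omega), List.getElem?_drop]
  rw [prod_take_add w i (a + 1), ← hxd] at he
  have he' : (w'.take i').prod * x.prod = (w'.take j').prod := by
    rw [mul_inv_rev] at he
    have h1 : (w'.take i').prod = (w'.take j').prod * x.prod⁻¹ := by
      have h2 := congrArg (· * (w.take i).prod) he
      simp only [mul_assoc, inv_mul_cancel, mul_one] at h2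
      exact h2
    rw [h1, mul_assoc, inv_mul_cancel, mul_one]
  rcases lt_trichotomy i' j' with h | h | h
  · -- parallel
    obtain ⟨b, rfl⟩ : ∃ b, j' = i' + (b + 1) := ⟨j' - i' - 1, by omega⟩
    have hy := hw'.of_take i' (b + 1)
    rw [prod_take_add w' i' (b + 1)] at he'
    set y := (w'.drop i').take (b + 1) with hyd
    have hxy : x = y := hx.eq hy (mul_left_cancel he')
    have hylen : y.length = b + 1 := by
      rw [hyd, List.length_take, List.length_drop]
      omega
    have hab : a = b := by
      have := congrArg List.length hxy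
      omega
    subst hab
    left
    refine ⟨i + a, i' + a, by omega, by omega, ?_⟩
    have hylast : y[a]? = w'[i' + a]? := by
      rw [hyd, List.getElem?_take_of_lt (by omega), List.getElem?_drop]
    refine ⟨x[a]'(by omega), ?_, ?_⟩
    · rw [← hxlast]
      exact List.getElem?_eq_getElem _
    · rw [← hylast, ← hxy]
      exact List.getElem?_eq_getElem _
  · -- impossible
    exfalso
    subst h
    have h1 : x.prod = 1 := by
      have h2 : (w'.take i').prod * x.prod = (w'.take i').prod * 1 := by rw [he', mul_one]
      exact mul_left_cancel h2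
    have h2 := hx.eq_nil h1
    rw [h2] at hxlen
    simp at hxlen
  · -- antiparallel
    obtain ⟨b, rfl⟩ : ∃ b, i' = j' + (b + 1) := ⟨i' - j' - 1, by omega⟩
    have hy := hw'.of_take j' (b + 1)
    rw [prod_take_add w' j' (b + 1)] at he'
    set y := (w'.drop j').take (b + 1) with hyd
    have hylen : y.length = b + 1 := by
      rw [hyd, List.length_take, List.length_drop]
      omega
    have h1 : y.prod * x.prod = 1 := by
      have h2 : (w'.take j').prod * (y.prod * x.prod) = (w'.take j').prod * 1 := by
        rw [← mul_assoc, he', mul_one]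
      exact mul_left_cancel h2
    have hxy : x = y.reverse.map (·⁻¹) := by
      apply hx.eq hy.reverse
      rw [List.map_reverse, ← List.prod_inv_reverse]
      exact eq_inv_of_mul_eq_one_right h1
    have hab : a = b := by
      have := congrArg List.length hxy
      rw [List.length_map, List.length_reverse] at this
      omega
    subst hab
    right
    refine ⟨i + a, j', by omega, rfl, ?_⟩
    have hyfirst : y[0]? = w'[j']? := by
      rw [hyd, List.getElem?_take_of_lt (by omega), List.getElem?_drop]
      simp
    refine ⟨y[0]'(by omega), ?_, ?_⟩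
    · rw [← hxlast, hxy, List.getElem?_map, List.getElem?_reverse (by omega)]
      have : y.length - 1 - a = 0 := by omega
      rw [this, List.getElem?_eq_getElem (by omega)]
      rfl
    · rw [← hyfirst]
      exact List.getElem?_eq_getElem _

/-- number of occurrences -/
noncomputable def occ (w : List G) (s : G) : ℕ := by
  classical
  exact ((range w.length).filter fun p => w[p]? = some s).card

theorem occ_def [DecidableEq G] (w : List G) (s : G) :
    occ w s = ((range w.length).filter fun p => w[p]? = some s).card := by
  unfold occ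
  congr!

/-- the weight of a letter with respect to a word -/
noncomputable def cc (w : List G) (s : G) : ℕ := occ w s + occ w s⁻¹

theorem cc_inv (w : List G) (s : G) : cc w s⁻¹ = cc w s := by
  unfold cc
  rw [inv_inv, add_comm]

/-- The counting inequality. -/
theorem counting [Fintype G] {w w' : List G} (hw : W.Mem w) (hw' : W.Mem w') :
    (w.length + 1) * (w'.length + 1) ≤ Fintype.card G + (w'.map (cc w)).sum := by
  classical
  set F : ℕ × ℕ → G := fun x => (w'.take x.2).prod * ((w.take x.1).prod)⁻¹ with hF
  set R := range (w.length + 1) ×ˢ range (w'.length + 1) with hR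
  set Non := R.filter fun x => ∃ y ∈ R, y.1 < x.1 ∧ F y = F x with hNon
  set Min := R.filter fun x => ¬ ∃ y ∈ R, y.1 < x.1 ∧ F y = F x with hMin
  have hcard : Non.card + Min.card = (w.length + 1) * (w'.length + 1) := by
    rw [hNon, hMin, card_filter_add_card_filter_not, hR, card_product, card_range, card_range]
  have hMinc : Min.card ≤ Fintype.card G := by
    rw [← card_univ]
    refine card_le_card_of_injOn F (fun _ _ => mem_univ _) ?_
    intro x hx y hy hxy
    rw [mem_coe, hMin, mem_filter] at hx hy
    rcases lt_trichotomy x.1 y.1 with h | h | h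
    · exact absurd ⟨x, hx.1, h, hxy⟩ hy.2
    · by_contra hne
      have h2 : x.2 ≠ y.2 := fun h' => hne (Prod.ext h h')
      have h3 : (w'.take x.2).prod = (w'.take y.2).prod := by
        simp only [hF, h] at hxy
        exact mul_right_cancel hxy
      have hxR := hx.1
      have hyR := hy.1
      rw [hR, mem_product, mem_range, mem_range] at hxR hyR
      have key : ∀ a b : ℕ, a < b → b ≤ w'.length → (w'.take a).prod ≠ (w'.take b).prod := by
        intro a b hab hb hE
        obtain ⟨c, rfl⟩ : ∃ c, b = a + (c + 1) := ⟨b - a - 1, by omega⟩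
        rw [prod_take_add] at hE
        have h4 : ((w'.drop a).take (c + 1)).prod = 1 := by
          have h5 : (w'.take a).prod * ((w'.drop a).take (c + 1)).prod =
              (w'.take a).prod * 1 := by rw [← hE, mul_one]
          exact mul_left_cancel h5
        have h5 := (hw'.of_take a (c + 1)).eq_nil h4
        have h6 := congrArg List.length h5
        rw [List.length_take, List.length_drop, List.length_nil] at h6
        omega
      rcases lt_or_gt_of_ne h2 with h4 | h4
      · exact key _ _ h4 (by omega) h3
      · exact key _ _ h4 (by omega) h3.symm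
    · exact absurd ⟨y, hy.1, h, hxy.symm⟩ hx.2
  have hNonc : Non.card ≤ (w'.map (cc w)).sum := by
    set Q := range w.length ×ˢ range w'.length with hQ
    set Q1 := Q.filter fun x => ∃ s, w[x.1]? = some s ∧ w'[x.2]? = some s with hQ1
    set Q2 := Q.filter fun x => ∃ s, w[x.1]? = some s⁻¹ ∧ w'[x.2]? = some s with hQ2
    have hsub : Non ⊆ Q1.image (fun x => (x.1 + 1, x.2 + 1)) ∪ Q2.image (fun x => (x.1 + 1, x.2)) := by
      rintro ⟨j, j'⟩ hx
      rw [hNon, mem_filter] at hx
      obtain ⟨hxR, ⟨i, i'⟩, hyR, hlt, heq⟩ := hx
      rw [hR, mem_product, mem_range, mem_range] at hxR hyR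
      simp only at hxR hyR hlt
      rw [mem_union, mem_image, mem_image]
      rcases coincide hw hw' hlt (by omega) (by omega) (by omega) heq with
        ⟨p, q, h1, h2, s, h3, h4⟩ | ⟨p, q, h1, h2, s, h3, h4⟩
      · left
        refine ⟨(p, q), ?_, by simp only [h1]; exact Prod.ext rfl h2.symm⟩
        rw [hQ1, mem_filter, hQ, mem_product, mem_range, mem_range]
        refine ⟨⟨?_, ?_⟩, s, h3, h4⟩
        · exact (List.getElem?_eq_some_iff.1 h3).1
        · exact (List.getElem?_eq_some_iff.1 h4).1
      · right
        refine ⟨(p, q), ?_, by simp only [h1]; exact Prod.ext rfl h2.symm⟩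
        rw [hQ2, mem_filter, hQ, mem_product, mem_range, mem_range]
        refine ⟨⟨?_, ?_⟩, s, h3, h4⟩
        · exact (List.getElem?_eq_some_iff.1 h3).1
        · exact (List.getElem?_eq_some_iff.1 h4).1
    refine (card_le_card hsub).trans ((card_union_le _ _).trans
      ((add_le_add card_image_le card_image_le).trans ?_))
    have hsum : ∀ f : G → G, (Q.filter fun x => ∃ s, w[x.1]? = some (f s) ∧
        w'[x.2]? = some s).card = (w'.map fun s => occ w (f s)).sum := by
      intro f
      rw [← Fin.sum_univ_fun_getElem w' fun s => occ w (f s), card_filter, hQ, sum_product_right,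
        sum_range]
      refine sum_congr rfl fun q _ => ?_
      rw [occ_def, card_filter]
      refine sum_congr rfl fun p _ => ?_
      congr 1
      rw [eq_iff_iff]
      constructor
      · rintro ⟨s, h1, h2⟩
        rw [List.getElem?_eq_getElem q.2] at h2
        have h3 : w'[(q : ℕ)] = s := Option.some_injective _ h2
        rw [h1, ← h3]
      · intro h
        exact ⟨_, h, List.getElem?_eq_getElem q.2⟩
    have h1 := hsum (fun s => s)
    have h2 := hsum (fun s => s⁻¹)
    have h3 : Q1.card = (w'.map fun s => occ w s).sum := by
      rw [← h1, hQ1]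
      congr!
    have h4 : Q2.card = (w'.map fun s => occ w s⁻¹).sum := by
      rw [← h2, hQ2]
    rw [h3, h4, ← List.sum_map_add]
    rfl
  omega

end Pool.Agent.H27Path
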